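import Mathlib
import Pool.Agent.Helper930.PicF

set_option autoImplicit false

open Set Filter Topology MeasureTheory Metric
open scoped ENNReal ContDiff

namespace Pool.Agent.Results.MP_104731_an.BoundedMap

/-! ### Definitions -/

/-- Euclidean `n`-space. -/
abbrev Rn (n : ℕ) : Type := EuclideanSpace ℝ (Fin n)

/-- `f ∈ W^{1,1}_loc(ℝⁿ, ℝⁿ)` with weak derivative `Df`: both are locally integrable and the
integration by parts formula holds for all smooth test functions with compact support. -/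
def HasWeakDeriv {n : ℕ} (f : Rn n → Rn n) (Df : Rn n → Rn n →L[ℝ] Rn n) : Prop :=
  LocallyIntegrable f volume ∧ LocallyIntegrable Df volume ∧
    ∀ φ : Rn n → ℝ, ContDiff ℝ ∞ φ → HasCompactSupport φ → ∀ v : Rn n,
      ∫ x, (fderiv ℝ φ x v) • f x = - ∫ x, φ x • Df x v

/-- `f` is a mapping of finite distortion with weak derivative `Df`: `f ∈ W^{1,1}_loc`, the Jacobian
is locally integrable, and `|Df|ⁿ ≤ K J` almost everywhere for some finite `K ≥ 1`. -/
structure IsFiniteDistortion {n : ℕ} (f : Rn n → Rn n) (Df : Rn n → Rn n →L[ℝ] Rn n) : Prop where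
  weak : HasWeakDeriv f Df
  jacobian : LocallyIntegrable (fun x => (Df x).det) volume
  bound : ∃ K : Rn n → ℝ, (∀ x, 1 ≤ K x) ∧ ∀ᵐ x, ‖Df x‖ ^ n ≤ K x * (Df x).det

/-- The distortion of a matrix: `|A|ⁿ / det A` if `det A > 0`, and `1` otherwise. -/
noncomputable def distortion {n : ℕ} (A : Rn n →L[ℝ] Rn n) : ℝ :=
  if 0 < A.det then ‖A‖ ^ n / A.det else 1

/-- The growth condition `limsup_{R → ∞} R⁻ⁿ ∫_{B(0,R)} φ(K_f) < ∞`. -/
def GrowthCondition {n : ℕ} (φ : ℝ → ℝ) (Df : Rn n → Rn n →L[ℝ] Rn n) : Prop :=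
  limsup (fun R : ℝ => (∫⁻ x in ball (0 : Rn n) R, ENNReal.ofReal (φ (distortion (Df x)))) /
    ENNReal.ofReal (R ^ n)) atTop < ⊤

/-! ### Proof -/

open Pool.Agent.Helper930 Pool.Agent.Helper930.Pic

/-- For every `n ≥ 3` there is a continuous, non-constant and bounded mapping of finite distortion
`f : ℝⁿ → ℝⁿ` which satisfies the growth condition with `φ(t) = t^p` for every `p > n - 1`, and which
moreover lies in `W^{1,q}_loc` for every `q < n`. In particular it omits infinitely many points. -/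
theorem result (n : ℕ) (hn : 3 ≤ n) : ∃ (f : Rn n → Rn n) (Df : Rn n → Rn n →L[ℝ] Rn n),
    Continuous f ∧ IsFiniteDistortion f Df ∧ (∃ x y, f x ≠ f y) ∧
    (∀ p : ℝ, (n : ℝ) - 1 < p → GrowthCondition (fun t => t ^ p) Df) ∧
    (∀ q : ℝ, 0 < q → q < n → ∀ r : ℝ, ∫⁻ x in ball (0 : Rn n) r, ENNReal.ofReal (‖Df x‖ ^ q) < ⊤) ∧
    (∃ M : ℝ, ∀ x, ‖f x‖ ≤ M) ∧ (range f)ᶜ.Infinite := by
  have hfr : Module.finrank ℝ (Rn n) = n := finrank_euclideanSpace_fin
  have hpos : 0 < n := by omega
  set e : Rn n := EuclideanSpace.single (⟨0, hpos⟩ : Fin n) (1:ℝ) with he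
  have hen : ‖e‖ = 1 := by rw [he]; simp
  have he0 : e ≠ 0 := by intro h; rw [h, norm_zero] at hen; exact zero_ne_one hen
  set R : Rn n ≃ₗᵢ[ℝ] Rn n := ((Submodule.span ℝ {e})ᗮ).reflection with hRdef
  have hR : LinearMap.det (R.toLinearEquiv : Rn n →ₗ[ℝ] Rn n) = -1 := by
    have e3 := ((Submodule.span ℝ {e})ᗮ).det_reflection
    rw [Submodule.orthogonal_orthogonal, finrank_span_singleton he0, pow_one] at e3
    exact e3
  have hd : 2 ≤ Module.finrank ℝ (Rn n) := by rw [hfr]; omega
  have hnt : Nontrivial (Rn n) := nontriv hR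
  have hweak := FL_weak hR hd
  have houter : ∀ (z : Rn n), 1 < ‖z‖ → 0 < (fderiv ℝ (FL hR) z).det ∧
      ‖fderiv ℝ (FL hR) z‖ ^ n ≤ (fderiv ℝ (FL hR) z).det ∧
      (fderiv ℝ (FL hR) z).det ≤ 1 ∧ ‖fderiv ℝ (FL hR) z‖ ≤ 1 := by
    intro z hz
    have := outer_facts hR hz
    rwa [hfr] at this
  have hdpos : ∀ᵐ z : Rn n, 0 < (fderiv ℝ (FL hR) z).det := by
    filter_upwards [ae_cover hR, good_facts hR] with z hz hz2
    rcases hz with h | ⟨k, hk, hk2⟩
    · exact (outer_facts hR h).1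
    · exact (hz2 k hk hk2).1
  refine ⟨FL hR, fderiv ℝ (FL hR), FL_continuous hR, ⟨⟨?_, ?_, ?_⟩, J_locInt hR, ?_⟩, ?_, ?_, ?_, ?_, ?_⟩
  · exact (FL_continuous hR).locallyIntegrable
  · exact D_locInt hR hd
  · intro φ hφ hc v
    exact hweak.2.2 φ hφ hc (subset_univ _) v
  · refine ⟨fun x => max 1 (distortion (fderiv ℝ (FL hR) x)), fun x => le_max_left _ _, ?_⟩
    filter_upwards [hdpos] with x hx
    have h1 : distortion (fderiv ℝ (FL hR) x) = ‖fderiv ℝ (FL hR) x‖ ^ n / (fderiv ℝ (FL hR) x).det :=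
      if_pos hx
    calc ‖fderiv ℝ (FL hR) x‖ ^ n = distortion (fderiv ℝ (FL hR) x) * (fderiv ℝ (FL hR) x).det := by
          rw [h1, div_mul_cancel₀ _ hx.ne']
      _ ≤ _ := by gcongr; exact le_max_right _ _
  · -- not constant
    have hval : ∀ c : ℝ, 1 < c → ‖FL hR (c • e)‖ = c⁻¹ := by
      intro c hc
      have hnc : ‖c • e‖ = c := by
        rw [norm_smul, hen, mul_one, Real.norm_of_nonneg (by linarith)]
      have h1 : c • e ∉ (St hR 0).U := by
        change c • e ∉ ball (0 : Rn n) 1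
        rw [mem_ball_zero_iff, hnc]; linarith
      rw [FL_eq hR h1]
      change ‖R (G0 (c • e))‖ = _
      rw [R.norm_map]
      unfold G0
      rw [hnc, max_eq_right (by nlinarith), norm_smul, hnc, norm_inv,
        Real.norm_of_nonneg (by positivity)]
      field_simp
    refine ⟨(2:ℝ) • e, (3:ℝ) • e, fun h => ?_⟩
    have h2 := hval 2 (by norm_num)
    rw [h, hval 3 (by norm_num)] at h2
    norm_num at h2
  · -- growth
    intro p hp
    have hp0 : 0 < p := by
      have : (3:ℝ) ≤ n := by exact_mod_cast hn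
      linarith
    unfold GrowthCondition
    have hKK : ∀ A : Rn n →L[ℝ] Rn n, distortion A = KK A := by
      intro A; unfold distortion KK; rw [hfr]
    have hint := dist_int hR p hp0
    set C := ∫⁻ z in ball (0:Rn n) 1, ENNReal.ofReal (KK (fderiv ℝ (FL hR) z) ^ p) with hC
    have hb : ∀ r : ℝ, 1 ≤ r → (∫⁻ x in ball (0 : Rn n) r,
        ENNReal.ofReal ((fun t => t ^ p) (distortion (fderiv ℝ (FL hR) x)))) /
        ENNReal.ofReal (r ^ n) ≤ C + volume (ball (0:Rn n) 1) := by
      intro r hr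
      have h1 : ∫⁻ x in ball (0 : Rn n) r,
          ENNReal.ofReal ((fun t => t ^ p) (distortion (fderiv ℝ (FL hR) x))) ≤
          C + volume (ball (0:Rn n) r) := by
        simp_rw [hKK]
        apply ball_split hR
        intro z hz
        obtain ⟨f1, f2, -, -⟩ := houter z hz
        rw [ENNReal.ofReal_le_one]
        have g1 : KK (fderiv ℝ (FL hR) z) ≤ 1 := by
          unfold KK
          rw [if_pos f1, hfr, div_le_one f1]; exact f2
        have g0 : 0 ≤ KK (fderiv ℝ (FL hR) z) := by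
          unfold KK
          rw [if_pos f1]; positivity
        exact Real.rpow_le_one g0 g1 hp0.le
      have hrn : 1 ≤ r ^ n := one_le_pow₀ hr
      have h0 : ENNReal.ofReal (r ^ n) ≠ 0 := by
        rw [ne_eq, ENNReal.ofReal_eq_zero, not_le]; linarith
      rw [ENNReal.div_le_iff h0 ENNReal.ofReal_ne_top]
      refine h1.trans ?_
      rw [add_mul]
      apply add_le_add
      · have : (1:ℝ≥0∞) ≤ ENNReal.ofReal (r ^ n) := by
          rw [ENNReal.one_le_ofReal]; exact hrn
        calc C = C * 1 := (mul_one _).symm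
          _ ≤ _ := by gcongr
      · rw [Measure.addHaar_ball _ _ (by linarith), hfr, mul_comm]
    have hfin : C + volume (ball (0:Rn n) 1) < ⊤ :=
      ENNReal.add_lt_top.mpr ⟨hint, measure_ball_lt_top (μ := (volume : Measure (Rn n)))⟩
    refine lt_of_le_of_lt (limsup_le_of_le ?_ ?_) hfin
    · isBoundedDefault
    · filter_upwards [eventually_ge_atTop (1:ℝ)] with r hr using hb r hr
  · -- Sobolev regularity
    intro q hq0 hq r
    have h1 := geo hR q hq0 (by rw [hfr]; exact hq)
    refine (ball_split hR _ ?_ r).trans_lt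
      (ENNReal.add_lt_top.mpr ⟨h1, measure_ball_lt_top (μ := (volume : Measure (Rn n)))⟩)
    intro z hz
    rw [ENNReal.ofReal_le_one]
    exact Real.rpow_le_one (norm_nonneg _) (houter z hz).2.2.2 hq0.le
  · exact ⟨3, FL_norm hR⟩
  · -- omitted points
    have hinj : Function.Injective (fun m : ℕ => ((4:ℝ) + m) • e) := by
      intro a b h
      have h1 := smul_left_injective ℝ he0 h
      have h2 : (a:ℝ) = b := by
        have : (4:ℝ) + a = 4 + b := h1
        linarith
      exact_mod_cast h2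
    refine Set.infinite_of_injective_forall_mem hinj ?_
    rintro m ⟨x, hx⟩
    have h1 := FL_norm hR x
    have h2 : ‖((4:ℝ) + m) • e‖ = 4 + m := by
      rw [norm_smul, hen, mul_one, Real.norm_of_nonneg (by positivity)]
    have hx' : FL hR x = ((4:ℝ) + m) • e := hx
    rw [hx', h2] at h1
    have : (0:ℝ) ≤ m := Nat.cast_nonneg m
    linarith

end Pool.Agent.Results.MP_104731_an.BoundedMap
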